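import Pool.Agent.H21.BS.Targets
import Pool.Agent.H21.BS.TB

/-!
# A Bessel inequality over many levels: row OM2
-/

set_option autoImplicit false

open Finset Pool.Agent.H6.N4D

namespace Pool.Agent.H79.BS

open Pool.Agent.H21.BS

theorem range_split (T m : ℕ) (h : ℕ → ℂ) :
    ∑ x ∈ range (T * m), h x = ∑ t ∈ range T, ∑ y ∈ range m, h (t * m + y) := by
  induction T with
  | zero => simp
  | succ T ih => rw [Nat.succ_mul, Finset.sum_range_add, ih, Finset.sum_range_succ]

theorem pf_OM2 (hLVL : T_LVL) (hCRS : T_CRS) : T_OM2 := by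
  intro W
  obtain ⟨C, hC0, hC⟩ := hCRS W
  refine ⟨C, hC0, ?_⟩
  intro S c hS hc i j hi hij hj
  obtain ⟨h1, h2, h3, h4, h5⟩ := hLVL S W hS
  obtain ⟨hNi, hsi, hci, hL, -⟩ := h1 i (by omega)
  obtain ⟨hNj, hsj, hcj, -, hsum⟩ := h1 j hj
  obtain ⟨T, hT, hcT⟩ := h2 i j hij.le hj
  obtain ⟨hκ, hP⟩ := h3 i j hij hj
  have hs1 : 1 ≤ S.s i := hS.s1 i (by omega)
  have hs0 : 1 ≤ S.s 0 := hS.s1 0 (by omega)
  have hNi2 : S.N i = S.s i ^ 2 := rfl
  have hrp : (S.s i : ℝ) ^ (-(1 / 5) : ℝ) ≤ (S.s 0 : ℝ) ^ (-(1 / 5) : ℝ) :=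
    Real.rpow_le_rpow_of_nonpos (by exact_mod_cast hs0) (by exact_mod_cast hsi) (by norm_num)
  -- one cell
  have hcell : ∀ k' < S.cnt j, ‖∑ x ∈ range (S.N j),
      S.Om c i (S.U + k' * S.N j + x) * starRingEnd ℂ (S.Om c j (S.U + k' * S.N j + x))‖ ≤
      C * S.N j * (S.s 0 : ℝ) ^ (-(1 / 5) : ℝ) := by
    intro k' hk'
    have hlt : ∀ t < T, k' * T + t < S.cnt i := fun t ht => by
      rw [hcT]
      calc k' * T + t < k' * T + T := by omega
        _ = (k' + 1) * T := by ring
        _ ≤ S.cnt j * T := Nat.mul_le_mul_right T hk'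
    have hok : ∀ t < T, (S.V i (k' * T + t) (c i (k' * T + t))).Ok W (S.P i) (S.κ i) :=
      fun t ht => h4 i hi (by omega) _ (hlt t ht) _ fun q => hc i _ q
    have h6 := hC (S.P j) (S.κ j) (S.V j k' (c j k')) (S.s i) T (S.Q i)
      (fun t => S.V i (k' * T + t) (c i (k' * T + t)))
      (h4 j (by omega) hj k' hk' _ fun q => hc j k' q) hs1 hP hκ hT (by
        intro t ht
        refine ⟨?_, rfl, rfl, fun q hq => ?_⟩
        · show S.U + (k' * T + t) * S.N i = S.U + k' * S.N j + t * S.s i ^ 2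
          rw [hT, hNi2]; ring
        · exact ⟨(hok t ht).pr q hq, (hok t ht).up q hq, (hok t ht).bv q hq,
            (hok t ht).cb q hq⟩)
    have h7 : ∑ x ∈ range (S.N j),
        S.Om c i (S.U + k' * S.N j + x) * starRingEnd ℂ (S.Om c j (S.U + k' * S.N j + x)) =
        ∑ t ∈ range T, ∑ y ∈ range (S.s i ^ 2),
          (S.V i (k' * T + t) (c i (k' * T + t))).om
            ((S.V j k' (c j k')).a + t * S.s i ^ 2 + y) *
          starRingEnd ℂ ((S.V j k' (c j k')).om
            ((S.V j k' (c j k')).a + t * S.s i ^ 2 + y)) := by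
      conv_lhs => rw [hT, range_split]
      refine Finset.sum_congr rfl fun t ht => Finset.sum_congr rfl fun y hy => ?_
      have ht' := Finset.mem_range.1 ht
      have hy' := Finset.mem_range.1 hy
      have hx : t * S.s i ^ 2 + y < S.N j := by
        rw [hT]
        calc t * S.s i ^ 2 + y < t * S.s i ^ 2 + S.s i ^ 2 := by omega
          _ = (t + 1) * S.s i ^ 2 := by ring
          _ ≤ T * S.s i ^ 2 := Nat.mul_le_mul_right _ ht'
      have e1 : S.U + k' * (T * S.s i ^ 2) + (t * S.s i ^ 2 + y) =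
          S.U + (k' * T + t) * S.N i + y := by rw [hNi2]; ring
      have e2 : (S.V j k' (c j k')).a + t * S.s i ^ 2 + y =
          S.U + (k' * T + t) * S.N i + y := by
        show S.U + k' * S.N j + t * S.s i ^ 2 + y = _
        rw [hT, hNi2]; ring
      have e3 : S.U + k' * (T * S.s i ^ 2) + (t * S.s i ^ 2 + y) =
          S.U + k' * S.N j + (t * S.s i ^ 2 + y) := by rw [hT]
      have e4 : S.U + k' * S.N j + (t * S.s i ^ 2 + y) =
          (S.V j k' (c j k')).a + t * S.s i ^ 2 + y := by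
        show _ = S.U + k' * S.N j + t * S.s i ^ 2 + y
        ring
      have e5 : S.Om c i (S.U + k' * (T * S.s i ^ 2) + (t * S.s i ^ 2 + y)) =
          (S.V i (k' * T + t) (c i (k' * T + t))).om
            ((S.V j k' (c j k')).a + t * S.s i ^ 2 + y) := by
        rw [e1, e2, h5 c i (k' * T + t) y (by omega) (hlt t ht') hy']
      have e6 : S.Om c j (S.U + k' * (T * S.s i ^ 2) + (t * S.s i ^ 2 + y)) =
          (S.V j k' (c j k')).om ((S.V j k' (c j k')).a + t * S.s i ^ 2 + y) := by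
        rw [e3, h5 c j k' _ hj hk' hx, e4]
      rw [e5, e6]
    rw [h7]
    refine h6.trans ?_
    exact mul_le_mul_of_nonneg_left hrp (by positivity)
  have hLR : (0 : ℝ) < S.L := by exact_mod_cast hL
  unfold av
  rw [norm_div, Complex.norm_natCast, div_le_iff₀ hLR,
    hsum fun n => S.Om c i n * starRingEnd ℂ (S.Om c j n)]
  refine (norm_sum_le _ _).trans ?_
  refine (Finset.sum_le_sum fun k' hk' => hcell k' (Finset.mem_range.1 hk')).trans ?_
  rw [Finset.sum_const, Finset.card_range, nsmul_eq_mul]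
  have h8 : (S.cnt j : ℝ) * S.N j = S.L := by exact_mod_cast hcj
  rw [← h8]
  exact le_of_eq (by ring)

end Pool.Agent.H79.BS
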